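import Mathlib

namespace Pool.Agent.Results.MP_d302e1_nt.Q1

/-- Formulas built from copies of one constant with binary `+` and `×`. -/
inductive Ex
  | c : Ex
  | add : Ex → Ex → Ex
  | mul : Ex → Ex → Ex

/-- Value when the constant is `l`. -/
def Ex.val (l : ℕ) : Ex → ℕ
  | c => l
  | add a b => a.val l + b.val l
  | mul a b => a.val l * b.val l

/-- Number of copies of the constant. -/
def Ex.size : Ex → ℕ
  | c => 1
  | add a b => a.size + b.size
  | mul a b => a.size + b.size

/-- Number of summands of the top-level sum that are the literal constant. -/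
def Ex.lit : Ex → ℕ
  | c => 1
  | add a b => a.lit + b.lit
  | mul _ _ => 0

/-- No sum occurring in the formula has four or more literal summands. -/
def Ex.Reduced : Ex → Prop
  | c => True
  | add a b => a.lit + b.lit < 4 ∧ a.Reduced ∧ b.Reduced
  | mul a b => a.Reduced ∧ b.Reduced

/-- The `l`-complexity of `n`. -/
noncomputable def cx (l n : ℕ) : ℕ := sInf {k | ∃ e : Ex, e.val l = n ∧ e.size = k}

def f (n : ℕ) : ℕ := [0, 1, 2, 3, 4, 5, 5, 6, 6, 6, 7, 8].getD n 0

lemma low (e : Ex) : 0 < e.val 1 ∧ f (e.val 1) ≤ e.size := by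
  have z (n) (h : 12 ≤ n) : f n = 0 := List.getD_eq_default _ _ h
  have t : ∀ a < 12, ∀ b < 12, f (a + b) ≤ f a + f b ∧ f (a * b) ≤ f a + f b := by decide
  induction e with
  | c => decide
  | add a b p q =>
    refine ⟨Nat.add_pos_left p.1 _, ?_⟩
    simp only [Ex.val, Ex.size]
    by_cases h : a.val 1 + b.val 1 < 12
    · have := (t (a.val 1) (by omega) (b.val 1) (by omega)).1; omega
    · simp [z _ (not_lt.1 h)]
  | mul a b p q =>
    refine ⟨Nat.mul_pos p.1 q.1, ?_⟩
    simp only [Ex.val, Ex.size]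
    by_cases h : a.val 1 * b.val 1 < 12
    · have := (t _ ((Nat.le_mul_of_pos_right _ q.1).trans_lt h) _
        ((Nat.le_mul_of_pos_left _ p.1).trans_lt h)).2
      omega
    · simp [z _ (not_lt.1 h)]

theorem result : ∃ n > 0, ∃ R : Ex, R.val 1 = n ∧ R.size = cx 1 n ∧ R.Reduced ∧
    cx 2 (R.val 2) < cx 1 n := by
  let t : Ex := .add .c (.add .c .c)
  let R : Ex := .add .c (.add .c (.mul t t))
  have h : cx 1 11 = 8 := le_antisymm (Nat.sInf_le ⟨R, rfl, rfl⟩)
    (le_csInf ⟨_, R, rfl, rfl⟩ fun k ⟨e, a, b⟩ => by have := (low e).2; rw [a, b] at this; exact this)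
  refine ⟨11, by norm_num, R, rfl, h.symm, by simp [R, t, Ex.Reduced, Ex.lit], h ▸ ?_⟩
  have : cx 2 (R.val 2) ≤ 6 :=
    Nat.sInf_le ⟨.mul (.mul .c .c) (.add .c (.mul .c (.mul .c .c))), rfl, rfl⟩
  omega

end Pool.Agent.Results.MP_d302e1_nt.Q1
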